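import Mathlib

set_option autoImplicit false

open MulOpposite Cardinal

namespace Pool.Agent.Results.MP_cfafa5_al.NotHomeomorphic

/-- A pp condition in one free variable `v` over `S`, for left `S`-modules:
`∃ w_1 … w_m, ⋀_j a_j v + ∑_i b_{ij} w_i = 0`. -/
structure PPFormula (S : Type) where
  m : ℕ
  k : ℕ
  a : Fin k → S
  b : Fin m → Fin k → S

/-- The solution set of a pp condition in a left `S`-module. -/
def PPFormula.sol {S : Type} [Ring S] (φ : PPFormula S) (M : Type) [AddCommGroup M]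
    [Module S M] : Set M :=
  {v | ∃ w : Fin φ.m → M, ∀ j, φ.a j • v + ∑ i, φ.b i j • w i = 0}

/-- A pure embedding of left `S`-modules: an injective linear map such that every finite system of
linear equations with constants from `A` that has a solution in `B` has a solution in `A`. -/
def IsPureEmbedding {S : Type} [Ring S] {A B : Type} [AddCommGroup A] [Module S A]
    [AddCommGroup B] [Module S B] (f : A →ₗ[S] B) : Prop :=
  Function.Injective f ∧
    ∀ (m k : ℕ) (b : Fin m → Fin k → S) (c : Fin k → A),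
      (∃ w : Fin m → B, ∀ j, ∑ i, b i j • w i = f (c j)) →
        ∃ w : Fin m → A, ∀ j, ∑ i, b i j • w i = c j

/-- A left `S`-module is pure-injective if every homomorphism into it extends along every pure
embedding. -/
def IsPureInjective (S : Type) [Ring S] (M : Type) [AddCommGroup M] [Module S M] : Prop :=
  ∀ (A B : Type) [AddCommGroup A] [Module S A] [AddCommGroup B] [Module S B]
    (f : A →ₗ[S] B), IsPureEmbedding f → ∀ g : A →ₗ[S] M,
      ∃ h : B →ₗ[S] M, ∀ x, h (f x) = g x

/-- A left `S`-module is indecomposable if it is nonzero and is not the direct sum of two nonzero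
submodules. -/
def IsIndecomposable (S : Type) [Ring S] (M : Type) [AddCommGroup M] [Module S M] : Prop :=
  Nontrivial M ∧ ∀ A B : Submodule S M, IsCompl A B → A = ⊥ ∨ B = ⊥

/-- An indecomposable pure-injective left `S`-module. -/
structure IndecPureInj (S : Type) [Ring S] where
  carrier : Type
  [grp : AddCommGroup carrier]
  [mod : Module S carrier]
  pinj : IsPureInjective S carrier
  indec : IsIndecomposable S carrier

attribute [instance] IndecPureInj.grp IndecPureInj.mod

/-- Isomorphism of indecomposable pure-injective modules. -/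
def isoSetoid (S : Type) [Ring S] : Setoid (IndecPureInj S) where
  r N N' := Nonempty (N.carrier ≃ₗ[S] N'.carrier)
  iseqv :=
    ⟨fun _ => ⟨LinearEquiv.refl _ _⟩, fun ⟨e⟩ => ⟨e.symm⟩, fun ⟨e⟩ ⟨e'⟩ => ⟨e.trans e'⟩⟩

/-- The left Ziegler spectrum of `S`: the set of isomorphism classes of indecomposable
pure-injective left `S`-modules. -/
def LeftZg (S : Type) [Ring S] : Type 1 := Quotient (isoSetoid S)

/-- The isomorphism class of an indecomposable pure-injective module. -/
def cls {S : Type} [Ring S] (N : IndecPureInj S) : LeftZg S := Quotient.mk (isoSetoid S) N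

/-- The set `(φ/ψ)` of the classes of the modules `N` such that `φ(N)` is not contained in
`ψ(N)`. -/
def basic {S : Type} [Ring S] (φ ψ : PPFormula S) : Set (LeftZg S) :=
  {x | ∃ N : IndecPureInj S, x = cls N ∧ ¬ φ.sol N.carrier ⊆ ψ.sol N.carrier}

/-- The Ziegler topology, with the sets `(φ/ψ)` as a (sub)basis of open sets. -/
instance zieglerTopology (S : Type) [Ring S] : TopologicalSpace (LeftZg S) :=
  TopologicalSpace.generateFrom {U | ∃ φ ψ : PPFormula S, U = basic φ ψ}

/-- The right Ziegler spectrum of `R`: right `R`-modules are left modules over the opposite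
ring. -/
abbrev RightZg (R : Type) [Ring R] : Type 1 := LeftZg Rᵐᵒᵖ

/-! ### Modules over von Neumann regular rings -/

/-- A finitely generated left ideal of a von Neumann regular ring is generated by an idempotent
that fixes it. -/
theorem exists_right_unit {S : Type} [Ring S] (hS : ∀ a : S, ∃ x : S, a * x * a = a) (k : ℕ)
    (β : Fin k → S) :
    ∃ γ : Fin k → S, ∀ j, β j * (∑ i, γ i * β i) = β j := by
  induction k with
  | zero => exact ⟨fun _ => 0, fun j => j.elim0⟩
  | succ k ih =>
    obtain ⟨γ, hγ⟩ := ih (fun i => β i.castSucc)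
    set e := ∑ i : Fin k, γ i * β i.castSucc with he
    set b := β (Fin.last k) with hb
    obtain ⟨x, hx⟩ := hS (b * (1 - e))
    refine ⟨Fin.snoc (fun i => γ i - (1 - e) * x * b * γ i) ((1 - e) * x), ?_⟩
    have hsum : (∑ i, (Fin.snoc (fun i => γ i - (1 - e) * x * b * γ i) ((1 - e) * x) :
        Fin (k + 1) → S) i * β i) = e + (1 - e) * x * (b * (1 - e)) := by
      rw [Fin.sum_univ_castSucc]
      simp only [Fin.snoc_castSucc, Fin.snoc_last]
      have : ∑ i : Fin k, (γ i - (1 - e) * x * b * γ i) * β i.castSucc =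
          e - (1 - e) * x * b * e := by
        conv_rhs => rw [he]
        rw [Finset.mul_sum, ← Finset.sum_sub_distrib]
        refine Finset.sum_congr rfl fun i _ => ?_
        rw [← he]
        simp only [sub_mul, mul_assoc]
      rw [this, ← hb]
      noncomm_ring
    rw [hsum]
    intro j
    refine Fin.lastCases ?_ (fun j => ?_) j
    · rw [← hb]
      have h1 : b * (e + (1 - e) * x * (b * (1 - e))) =
          b * e + b * (1 - e) * x * (b * (1 - e)) := by
        noncomm_ring
      rw [h1, hx]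
      noncomm_ring
    · have h1 : β j.castSucc * (e + (1 - e) * x * (b * (1 - e))) =
          β j.castSucc * e + (β j.castSucc - β j.castSucc * e) * x * (b * (1 - e)) := by
        noncomm_ring
      rw [h1, hγ j, sub_self, zero_mul, zero_mul, add_zero]

/-- Over a von Neumann regular ring every embedding is pure. -/
theorem pure_of_regular {S : Type} [Ring S] (hS : ∀ a : S, ∃ x : S, a * x * a = a)
    {A B : Type} [AddCommGroup A] [Module S A] [AddCommGroup B] [Module S B] (f : A →ₗ[S] B)
    (hf : Function.Injective f) : IsPureEmbedding f := by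
  refine ⟨hf, fun m k b c => ?_⟩
  induction m generalizing c with
  | zero =>
    rintro ⟨w, hw⟩
    refine ⟨fun i => i.elim0, fun j => ?_⟩
    have := hw j
    rw [Finset.univ_eq_empty, Finset.sum_empty] at this ⊢
    exact hf (by rw [map_zero]; exact this)
  | succ m ih =>
    obtain ⟨γ, hγ⟩ := exists_right_unit hS k (fun j => b (Fin.last m) j)
    -- the reduced system
    have key : ∀ (M : Type) [AddCommGroup M] [Module S M] (w : Fin m → M) (c : Fin k → M)
        (l : Fin k),
        ∑ i, (b i.castSucc l - b (Fin.last m) l * ∑ j, γ j * b i.castSucc j) • w i =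
          (∑ i : Fin m, b i.castSucc l • w i) -
            b (Fin.last m) l • ∑ j, γ j • ∑ i : Fin m, b i.castSucc j • w i := by
      intro M _ _ w c l
      simp only [sub_smul, Finset.sum_sub_distrib, mul_smul, Finset.sum_smul, Finset.smul_sum]
      congr 1
      exact Finset.sum_comm
    rintro ⟨w, hw⟩
    obtain ⟨w', hw'⟩ := ih (fun i l => b i.castSucc l - b (Fin.last m) l * ∑ j, γ j * b i.castSucc j)
      (fun l => c l - b (Fin.last m) l • ∑ j, γ j • c j) ⟨fun i => w i.castSucc, fun l => by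
        rw [key B (fun i => w i.castSucc) (fun j => f (c j))]
        have h1 : ∀ j, ∑ i : Fin m, b i.castSucc j • w i.castSucc =
            f (c j) - b (Fin.last m) j • w (Fin.last m) := by
          intro j
          rw [← hw j, Fin.sum_univ_castSucc, add_sub_cancel_right]
        simp only [h1]
        have h2 : b (Fin.last m) l • ∑ j, γ j • b (Fin.last m) j • w (Fin.last m) =
            b (Fin.last m) l • w (Fin.last m) := by
          have : ∑ j, γ j • b (Fin.last m) j • w (Fin.last m) =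
              (∑ j, γ j * b (Fin.last m) j) • w (Fin.last m) := by
            rw [Finset.sum_smul]
            simp only [mul_smul]
          rw [this, ← mul_smul, hγ l]
        simp only [smul_sub, Finset.sum_sub_distrib]
        rw [h2, map_sub, map_smul, map_sum]
        simp only [map_smul]
        abel⟩
    refine ⟨Fin.snoc w' (∑ j, γ j • (c j - ∑ i : Fin m, b i.castSucc j • w' i)), fun l => ?_⟩
    rw [Fin.sum_univ_castSucc]
    simp only [Fin.snoc_castSucc, Fin.snoc_last]
    have h3 := hw' l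
    rw [key A w' c] at h3
    simp only [smul_sub, Finset.sum_sub_distrib] at h3 ⊢
    have h4 : ∑ i : Fin m, b i.castSucc l • w' i = c l - b (Fin.last m) l • ∑ j, γ j • c j +
        b (Fin.last m) l • ∑ j, γ j • ∑ i : Fin m, b i.castSucc j • w' i := by
      rw [← h3]; abel
    rw [h4]
    abel


/-- Every module embeds in an injective one. -/
theorem exists_injective (S : Type) [Ring S] (T : Type) [AddCommGroup T] [Module S T] :
    ∃ (Q : Type) (_ : AddCommGroup Q) (_ : Module S Q) (_ : Module.Injective S Q)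
      (j : T →ₗ[S] Q), Function.Injective j := by
  have : CategoryTheory.EnoughInjectives (ModuleCat.{0} S) := ModuleCat.enoughInjectives.{0} S
  let J := CategoryTheory.Injective.under (ModuleCat.of S T)
  let ι := CategoryTheory.Injective.ι (ModuleCat.of S T)
  have hJ : CategoryTheory.Injective (ModuleCat.of S J) :=
    inferInstanceAs (CategoryTheory.Injective J)
  exact ⟨J, inferInstance, inferInstance, Module.injective_module_of_injective_object S J,
    ι.hom, (ModuleCat.mono_iff_injective ι).1 inferInstance⟩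

/-- In an injective module every submodule is essential in a direct summand. -/
theorem exists_summand {S : Type} [Ring S] {Q : Type} [AddCommGroup Q] [Module S Q]
    (hQ : Module.Injective S Q) (T : Submodule S Q) :
    ∃ E B : Submodule S Q, T ≤ E ∧ IsCompl E B ∧ ∀ C ≤ E, Disjoint C T → C = ⊥ := by
  obtain ⟨B, -, hB⟩ := zorn_le_nonempty₀ {B : Submodule S Q | Disjoint B T} (by
    intro c hc hchain M0 hM0
    refine ⟨sSup c, ?_, fun z hz => le_sSup hz⟩
    rw [Set.mem_ofPred_eq, Submodule.disjoint_def]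
    intro x hx hxE
    rw [Submodule.mem_sSup_of_directed ⟨M0, hM0⟩ hchain.directedOn] at hx
    obtain ⟨M', hM', hxM'⟩ := hx
    exact Submodule.disjoint_def.1 (hc hM') x hxM' hxE) ⊥ disjoint_bot_left
  have hBT : Disjoint B T := hB.prop
  obtain ⟨E, hTE, hE⟩ := zorn_le_nonempty₀ {E : Submodule S Q | T ≤ E ∧ Disjoint E B} (by
    intro c hc hchain E0 hE0
    refine ⟨sSup c, ⟨(hc hE0).1.trans (le_sSup hE0), ?_⟩, fun z hz => le_sSup hz⟩
    rw [Submodule.disjoint_def]
    intro x hx hxB
    rw [Submodule.mem_sSup_of_directed ⟨E0, hE0⟩ hchain.directedOn] at hx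
    obtain ⟨E', hE', hxE'⟩ := hx
    exact Submodule.disjoint_def.1 (hc hE').2 x hxE' hxB) T ⟨le_rfl, hBT.symm⟩
  have hEB : Disjoint E B := hE.prop.2
  -- elements outside B
  have hout : ∀ q : Q, q ∉ B → ∃ s : S, ∃ b ∈ B, s • q + b ∈ T ∧ s • q + b ≠ 0 := by
    intro q hq
    by_contra hcon
    push Not at hcon
    have hd : Disjoint (Submodule.span S {q} ⊔ B) T := by
      rw [Submodule.disjoint_def]
      intro x hx hxE
      obtain ⟨y, hy, m, hm, rfl⟩ := Submodule.mem_sup.1 hx
      obtain ⟨s, rfl⟩ := Submodule.mem_span_singleton.1 hy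
      exact hcon s m hm hxE
    have := hB.le_of_ge hd le_sup_right
    exact hq (this (le_sup_left (α := Submodule S Q) (Submodule.mem_span_singleton_self q)))
  -- extend the inclusion of E along E → Q/B
  have hinj : Function.Injective (B.mkQ ∘ₗ E.subtype) := by
    rw [← LinearMap.ker_eq_bot, LinearMap.ker_eq_bot']
    intro x hx
    have : (x : Q) ∈ B := by simpa using hx
    exact Subtype.ext (Submodule.disjoint_def.1 hEB _ x.2 this)
  obtain ⟨g, hg⟩ := hQ.out (B.mkQ ∘ₗ E.subtype) hinj E.subtype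
  have hgE : ∀ x ∈ E, g (B.mkQ x) = x := fun x hx => by simpa using hg ⟨x, hx⟩
  have hgB : ∀ x ∈ B, g (B.mkQ x) = 0 := fun x hx => by
    have : B.mkQ x = 0 := by simpa using hx
    rw [this, map_zero]
  have hrange : ∀ q, g (B.mkQ q) ∈ E := by
    have hmem : LinearMap.range (g ∘ₗ B.mkQ) ∈ {E : Submodule S Q | T ≤ E ∧ Disjoint E B} := by
      refine ⟨fun t ht => ⟨t, hgE t (hTE ht)⟩, ?_⟩
      rw [Submodule.disjoint_def]
      rintro _ ⟨q, rfl⟩ hz
      by_contra hne
      have hqB : q ∉ B := fun h => hne (hgB q h)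
      obtain ⟨s, b, hb, h1, h2⟩ := hout q hqB
      have h3 := hgE _ (hTE h1)
      rw [map_add, map_smul, map_add, map_smul, hgB b hb, add_zero] at h3
      have h4 : s • q + b ∈ B := by
        rw [← h3]
        exact B.smul_mem s hz
      exact h2 (Submodule.disjoint_def.1 hBT _ h4 h1)
    have hle : E ≤ LinearMap.range (g ∘ₗ B.mkQ) := fun x hx => ⟨x, hgE x hx⟩
    intro q
    exact hE.le_of_ge hmem hle ⟨q, rfl⟩
  have hker : ∀ q, g (B.mkQ q) = 0 → q ∈ B := by
    intro q hq0
    by_contra hqB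
    obtain ⟨s, b, hb, h1, h2⟩ := hout q hqB
    have h3 := hgE _ (hTE h1)
    rw [map_add, map_smul, map_add, map_smul, hgB b hb, add_zero, hq0, smul_zero] at h3
    exact h2 h3.symm
  refine ⟨E, B, hTE, ⟨hEB, ?_⟩, ?_⟩
  · rw [codisjoint_iff, eq_top_iff]
    intro q _
    rw [Submodule.mem_sup]
    refine ⟨_, hrange q, q - g (B.mkQ q), hker _ ?_, add_sub_cancel _ _⟩
    rw [map_sub, map_sub, hgE _ (hrange q), sub_self]
  · intro C hCE hCT
    have hd : Disjoint (C ⊔ B) T := by
      rw [Submodule.disjoint_def]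
      intro x hx hxT
      obtain ⟨c, hc, b, hb, rfl⟩ := Submodule.mem_sup.1 hx
      have hbE : b ∈ E := by
        have := E.sub_mem (hTE hxT) (hCE hc)
        rwa [add_sub_cancel_left] at this
      have hb0 : b = 0 := Submodule.disjoint_def.1 hEB b hbE hb
      rw [hb0, add_zero] at hxT ⊢
      exact Submodule.disjoint_def.1 hCT c hc hxT
    have h1 := hB.le_of_ge hd le_sup_right
    rw [eq_bot_iff]
    intro c hc
    exact Submodule.disjoint_def.1 hEB c (hCE hc) (h1 (le_sup_left (α := Submodule S Q) hc))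

/-- An indecomposable injective module is uniform. -/
theorem uniform_of_injective {S : Type} [Ring S] {N : Type} [AddCommGroup N] [Module S N]
    (hN : Module.Injective S N) (hi : IsIndecomposable S N) (x y : N) (hx : x ≠ 0) (hy : y ≠ 0) :
    ∃ a b : S, a • x = b • y ∧ a • x ≠ 0 := by
  obtain ⟨E, B, hTE, hEB, hess⟩ := exists_summand hN (Submodule.span S {x})
  have hxE : x ∈ E := hTE (Submodule.mem_span_singleton_self x)
  rcases hi.2 E B hEB with h | h
  · rw [h] at hxE
    exact absurd ((Submodule.mem_bot S).1 hxE) hx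
  · have hE : E = ⊤ := by
      have := hEB.codisjoint
      rw [h, codisjoint_iff, sup_bot_eq] at this
      exact this
    by_contra hcon
    push Not at hcon
    have h1 := hess (Submodule.span S {y}) (by rw [hE]; exact le_top) (by
      rw [Submodule.disjoint_def]
      intro z hz hz'
      obtain ⟨b, rfl⟩ := Submodule.mem_span_singleton.1 hz
      obtain ⟨a, ha⟩ := Submodule.mem_span_singleton.1 hz'
      rw [← ha]
      exact hcon a b ha)
    exact hy (Submodule.span_singleton_eq_bot.1 h1)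

/-- Indecomposable injective modules are determined by the annihilator of a nonzero element. -/
theorem iso_of_ann {S : Type} [Ring S] {N N' : Type} [AddCommGroup N] [Module S N]
    [AddCommGroup N'] [Module S N'] (hN : Module.Injective S N) (hN' : Module.Injective S N')
    (hi : IsIndecomposable S N) (hi' : IsIndecomposable S N') (x : N) (x' : N') (hx : x ≠ 0)
    (h : ∀ s : S, s • x = 0 ↔ s • x' = 0) : Nonempty (N ≃ₗ[S] N') := by
  let f0 : S →ₗ[S] N := LinearMap.toSpanSingleton S N x
  let g0 : S →ₗ[S] N' := LinearMap.toSpanSingleton S N' x'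
  have hf0 : ∀ s, f0 s = s • x := fun s => rfl
  have hg0 : ∀ s, g0 s = s • x' := fun s => rfl
  have hle : LinearMap.ker f0 ≤ LinearMap.ker g0 := fun s hs => (h s).1 hs
  let f : (S ⧸ LinearMap.ker f0) →ₗ[S] N := (LinearMap.ker f0).liftQ f0 le_rfl
  let g : (S ⧸ LinearMap.ker f0) →ₗ[S] N' := (LinearMap.ker f0).liftQ g0 hle
  have hf : Function.Injective f := by
    rw [← LinearMap.ker_eq_bot]
    exact Submodule.ker_liftQ_eq_bot _ _ _ le_rfl
  obtain ⟨u, hu⟩ := hN'.out f hf g
  have hux : ∀ s : S, u (s • x) = s • x' := by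
    intro s
    have := hu (Submodule.Quotient.mk s)
    exact this
  have huinj : Function.Injective u := by
    rw [← LinearMap.ker_eq_bot, LinearMap.ker_eq_bot']
    intro y hy
    by_contra hy0
    obtain ⟨a, b, hab, hne⟩ := uniform_of_injective hN hi x y hx hy0
    have h1 := hux a
    rw [hab, map_smul, hy, smul_zero] at h1
    exact hne ((h a).2 h1.symm)
  obtain ⟨r, hr⟩ := hN.out u huinj LinearMap.id
  have hcompl : IsCompl (LinearMap.range u) (LinearMap.ker r) := by
    constructor
    · rw [Submodule.disjoint_def]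
      rintro _ ⟨y, rfl⟩ hy
      have h1 : r (u y) = 0 := hy
      rw [hr y] at h1
      have : y = 0 := h1
      rw [this, map_zero]
    · rw [codisjoint_iff, eq_top_iff]
      intro z _
      rw [Submodule.mem_sup]
      refine ⟨u (r z), ⟨_, rfl⟩, z - u (r z), ?_, add_sub_cancel _ _⟩
      rw [LinearMap.mem_ker, map_sub, hr (r z)]
      exact sub_self _
  rcases hi'.2 _ _ hcompl with h1 | h1
  · exfalso
    have : u x ∈ LinearMap.range u := ⟨x, rfl⟩
    rw [h1, Submodule.mem_bot] at this
    exact hx (huinj (by rw [this, map_zero]))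
  · refine ⟨LinearEquiv.ofBijective u ⟨huinj, fun z => ?_⟩⟩
    have h2 := hcompl.codisjoint
    rw [h1, codisjoint_iff, sup_bot_eq] at h2
    have : z ∈ LinearMap.range u := by rw [h2]; trivial
    exact this

/-- A uniform cyclic module `S/I` is contained in an indecomposable injective module. -/
theorem exists_hull {S : Type} [Ring S] (I : Submodule S S) (hI : (1 : S) ∉ I)
    (hun : ∀ a b : S, a ∉ I → b ∉ I → ∃ s t : S, s * a - t * b ∈ I ∧ s * a ∉ I) :
    ∃ (N : IndecPureInj S), Module.Injective S N.carrier ∧ ∃ x : N.carrier,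
      ∀ s : S, s • x = 0 ↔ s ∈ I := by
  obtain ⟨Q, _, _, hQ, j, hj⟩ := exists_injective S (S ⧸ I)
  obtain ⟨E, B, hTE, hEB, hess⟩ := exists_summand hQ (LinearMap.range j)
  let ρ : Q →ₗ[S] E := Submodule.projectionOnto E B hEB
  have hρ : ∀ x : E, ρ x = x := fun x => Submodule.projectionOnto_apply_left hEB x
  have hE : Module.Injective S E := ⟨fun X Y _ _ _ _ f hf h => by
    obtain ⟨h', hh'⟩ := hQ.out f hf (E.subtype ∘ₗ h)
    refine ⟨ρ ∘ₗ h', fun x => ?_⟩
    rw [LinearMap.comp_apply, hh']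
    exact hρ (h x)⟩
  set t0 : S ⧸ I := Submodule.Quotient.mk 1 with ht0
  have hmk : ∀ s : S, s • t0 = Submodule.Quotient.mk s := by
    intro s
    rw [ht0, ← Submodule.Quotient.mk_smul, smul_eq_mul, mul_one]
  have hs0 : ∀ s : S, j (s • t0) = 0 ↔ s ∈ I := by
    intro s
    rw [hmk]
    constructor
    · intro h
      exact (Submodule.Quotient.mk_eq_zero I).1 (hj (by rw [h, map_zero]))
    · intro h
      rw [(Submodule.Quotient.mk_eq_zero I).2 h, map_zero]
  let x0 : E := ⟨j t0, hTE ⟨t0, rfl⟩⟩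
  have hx0 : ∀ s : S, s • x0 = 0 ↔ s ∈ I := by
    intro s
    rw [← hs0 s, map_smul]
    constructor
    · intro h
      exact congrArg Subtype.val h
    · intro h
      exact Subtype.ext h
  -- every nonzero element of E has a nonzero multiple in the image
  have hmul : ∀ y : E, y ≠ 0 → ∃ s a : S, s • y = a • x0 ∧ a ∉ I := by
    intro y hy
    by_contra hcon
    push Not at hcon
    have h1 := hess (Submodule.span S {(y : Q)})
      ((Submodule.span_singleton_le_iff_mem _ _).2 y.2) (by
        rw [Submodule.disjoint_def]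
        intro z hz hz'
        obtain ⟨s, rfl⟩ := Submodule.mem_span_singleton.1 hz
        obtain ⟨t, ht⟩ := hz'
        obtain ⟨a, rfl⟩ := Submodule.Quotient.mk_surjective I t
        rw [← hmk] at ht
        rw [← ht, hs0]
        exact hcon s a (Subtype.ext (by rw [Submodule.coe_smul, ← ht, map_smul]; rfl)))
    exact hy (Subtype.ext (Submodule.span_singleton_eq_bot.1 h1))
  refine ⟨⟨E, ?_, ?_⟩, hE, x0, hx0⟩
  · intro A B _ _ _ _ f hf g
    exact hE.out f hf.1 g
  · refine ⟨⟨x0, 0, fun h => hI ((hx0 1).1 (by rw [h, smul_zero]))⟩, fun A B' hAB => ?_⟩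
    by_contra hcon
    rw [not_or] at hcon
    obtain ⟨x, hx, hxne⟩ := Submodule.exists_mem_ne_zero_of_ne_bot hcon.1
    obtain ⟨y, hy, hyne⟩ := Submodule.exists_mem_ne_zero_of_ne_bot hcon.2
    obtain ⟨s, a, hsa, ha⟩ := hmul x hxne
    obtain ⟨t, b, htb, hb⟩ := hmul y hyne
    obtain ⟨p, q, hpq, hp⟩ := hun a b ha hb
    have h1 : (p * a) • x0 = (q * b) • x0 := by
      rw [← sub_eq_zero, ← sub_smul, hx0]
      exact hpq
    have h2 : (p * a) • x0 ∈ A := by
      rw [mul_smul, ← hsa]
      exact A.smul_mem _ (A.smul_mem _ hx)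
    have h3 : (p * a) • x0 ∈ B' := by
      rw [h1, mul_smul, ← htb]
      exact B'.smul_mem _ (B'.smul_mem _ hy)
    exact hp ((hx0 _).1 (Submodule.disjoint_def.1 hAB.disjoint _ h2 h3))

/-- Over a von Neumann regular ring pure-injective modules are injective. -/
theorem injective_of_pinj {S : Type} [Ring S] (hS : ∀ a : S, ∃ x : S, a * x * a = a)
    {N : Type} [AddCommGroup N] [Module S N] (hN : IsPureInjective S N) :
    Module.Injective S N :=
  ⟨fun X Y _ _ _ _ f hf g => hN X Y f (pure_of_regular hS f hf) g⟩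

/-! ### The ring -/

/-- Sequences of natural numbers. -/
abbrev Sq : Type := ℕ → ℕ

/-- The field with two elements. -/
abbrev K : Type := ZMod 2

/-- Functions on sequences. -/
abbrev Fn : Type := Sq → K

/-- The first `n` terms are taken from `w`, the others from `x`. -/
def splice (n : ℕ) (w x : Sq) : Sq := fun i => if i < n then w i else x i

/-- `α` depends only on the first `n` terms. -/
def Dep (n : ℕ) (α : Fn) : Prop := ∀ x y : Sq, (∀ i < n, x i = y i) → α x = α y

theorem Dep.mono {m n : ℕ} (h : m ≤ n) {α : Fn} (hα : Dep m α) : Dep n α :=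
  fun x y hxy => hα x y fun i hi => hxy i (hi.trans_le h)

theorem splice_of_le {m n : ℕ} (h : m ≤ n) (u w x : Sq) :
    splice n u (splice m w x) = splice n u x := by
  funext i
  simp only [splice]
  split_ifs with h1 h2
  · rfl
  · omega
  · rfl

theorem splice_of_ge {m n : ℕ} (h : n ≤ m) (u w x : Sq) :
    splice n u (splice m w x) = splice m (splice n u w) x := by
  funext i
  simp only [splice]
  split_ifs with h1 h2 h3
  · rfl
  · omega
  · rfl
  · rfl

theorem splice_lt {n i : ℕ} (h : i < n) (w x : Sq) : splice n w x i = w i := if_pos h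

theorem splice_ge {n i : ℕ} (h : n ≤ i) (w x : Sq) : splice n w x i = x i := if_neg (by omega)

/-- The operators `φ ↦ (x ↦ ∑_i t_i(x) φ(splice n w_i x))`, where the `t_i` depend only on the first
`n` terms. -/
def IsS (n : ℕ) (T : Module.End K Fn) : Prop :=
  ∃ (ι : Type) (_ : Fintype ι) (w : ι → Sq) (t : ι → Fn), (∀ i, Dep n (t i)) ∧
    ∀ (φ : Fn) (x : Sq), T φ x = ∑ i, t i x * φ (splice n (w i) x)

/-- The additive group of these operators. -/
def S (n : ℕ) : AddSubgroup (Module.End K Fn) where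
  carrier := {T | IsS n T}
  zero_mem' := ⟨Empty, inferInstance, fun i => i.elim, fun i => i.elim, fun i => i.elim,
    fun φ x => by simp⟩
  add_mem' := by
    rintro T Q ⟨ι, _, w, t, ht, hT⟩ ⟨κ, _, w', t', ht', hQ⟩
    refine ⟨ι ⊕ κ, inferInstance, Sum.elim w w', Sum.elim t t', ?_, fun φ x => ?_⟩
    · rintro (i | i)
      · exact ht i
      · exact ht' i
    · rw [LinearMap.add_apply, Pi.add_apply, hT, hQ, Fintype.sum_sum_type]
      rfl
  neg_mem' := by
    rintro T ⟨ι, _, w, t, ht, hT⟩
    refine ⟨ι, inferInstance, w, fun i => -t i, fun i x y h => ?_, fun φ x => ?_⟩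
    · exact congrArg Neg.neg (ht i x y h)
    · rw [LinearMap.neg_apply, Pi.neg_apply, hT, ← Finset.sum_neg_distrib]
      exact Finset.sum_congr rfl fun i _ => (neg_mul _ _).symm

theorem mem_S {n : ℕ} {T : Module.End K Fn} : T ∈ S n ↔ IsS n T := Iff.rfl

theorem mul_mem_S {m n : ℕ} {T Q : Module.End K Fn} (hT : T ∈ S m) (hQ : Q ∈ S n) :
    T * Q ∈ S (max m n) := by
  obtain ⟨ι, _, w, t, ht, hT⟩ := hT
  obtain ⟨κ, _, w', t', ht', hQ⟩ := hQ
  rcases le_total m n with h | h
  · rw [max_eq_right h]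
    refine ⟨ι × κ, inferInstance, fun p => w' p.2,
      fun p x => t p.1 x * t' p.2 (splice m (w p.1) x), fun p x y hxy => ?_, fun φ x => ?_⟩
    · have h1 : t p.1 x = t p.1 y := ht p.1 x y fun i hi => hxy i (hi.trans_le h)
      have h2 : t' p.2 (splice m (w p.1) x) = t' p.2 (splice m (w p.1) y) :=
        ht' p.2 _ _ fun i hi => by
          simp only [splice]
          rw [hxy i hi]
      simp only [h1, h2]
    · rw [Module.End.mul_apply, hT, Fintype.sum_prod_type]
      refine Finset.sum_congr rfl fun i _ => ?_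
      rw [hQ, Finset.mul_sum]
      refine Finset.sum_congr rfl fun l _ => ?_
      rw [splice_of_le h, mul_assoc]
  · rw [max_eq_left h]
    refine ⟨ι × κ, inferInstance, fun p => splice n (w' p.2) (w p.1),
      fun p x => t p.1 x * t' p.2 (w p.1), fun p x y hxy => ?_, fun φ x => ?_⟩
    · simp only [ht p.1 x y hxy]
    · rw [Module.End.mul_apply, hT, Fintype.sum_prod_type]
      refine Finset.sum_congr rfl fun i _ => ?_
      rw [hQ, Finset.mul_sum]
      refine Finset.sum_congr rfl fun l _ => ?_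
      rw [splice_of_ge h, mul_assoc]
      congr 2
      exact ht' l _ _ fun i' hi' => splice_lt (hi'.trans_le h) _ _

theorem one_mem_S : (1 : Module.End K Fn) ∈ S 0 :=
  ⟨Unit, inferInstance, fun _ => 0, fun _ _ => 1, fun _ _ _ _ => rfl, fun φ x => by
    have : splice 0 0 x = x := by
      funext i
      exact splice_ge (Nat.zero_le i) _ _
    simp [this]⟩

/-- The sums of elements of the `S m` with `m ≥ n`. -/
def J (n : ℕ) : AddSubgroup (Module.End K Fn) :=
  AddSubgroup.closure {T | ∃ m, n ≤ m ∧ T ∈ S m}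

/-- The sums of elements of the `S m` with `m ≤ n`. -/
def Lo (n : ℕ) : AddSubgroup (Module.End K Fn) :=
  AddSubgroup.closure {T | ∃ m, m ≤ n ∧ T ∈ S m}

theorem S_le_J {m n : ℕ} (h : n ≤ m) : S m ≤ J n := fun _ hT =>
  AddSubgroup.subset_closure ⟨m, h, hT⟩

theorem S_le_Lo {m n : ℕ} (h : m ≤ n) : S m ≤ Lo n := fun _ hT =>
  AddSubgroup.subset_closure ⟨m, h, hT⟩

theorem J_anti {m n : ℕ} (h : n ≤ m) : J m ≤ J n :=
  AddSubgroup.closure_mono (by
    rintro _ ⟨l, hl, hT⟩
    exact ⟨l, h.trans hl, hT⟩)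

theorem Lo_mono {m n : ℕ} (h : m ≤ n) : Lo m ≤ Lo n :=
  AddSubgroup.closure_mono (by
    rintro _ ⟨l, hl, hT⟩
    exact ⟨l, hl.trans h, hT⟩)

/-- Bilinear induction for products. -/
theorem mul_mem_of {s t : Set (Module.End K Fn)} {G : AddSubgroup (Module.End K Fn)}
    (h : ∀ a ∈ s, ∀ b ∈ t, a * b ∈ G) {a b : Module.End K Fn} (ha : a ∈ AddSubgroup.closure s)
    (hb : b ∈ AddSubgroup.closure t) : a * b ∈ G := by
  induction ha using AddSubgroup.closure_induction with
  | mem a ha =>
    induction hb using AddSubgroup.closure_induction with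
    | mem b hb => exact h a ha b hb
    | zero => rw [mul_zero]; exact G.zero_mem
    | add x y _ _ hx hy => rw [mul_add]; exact G.add_mem hx hy
    | neg x _ hx =>
      have e : a * -x = -(a * x) := mul_neg a x
      rw [e]
      exact G.neg_mem hx
  | zero => rw [zero_mul]; exact G.zero_mem
  | add x y _ _ hx hy => rw [add_mul]; exact G.add_mem hx hy
  | neg x _ hx =>
    have e : -x * b = -(x * b) := neg_mul x b
    rw [e]
    exact G.neg_mem hx

theorem mul_mem_J_left {n : ℕ} {a b : Module.End K Fn} (ha : a ∈ J 0) (hb : b ∈ J n) :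
    a * b ∈ J n :=
  mul_mem_of (by
    rintro a ⟨m, _, ha⟩ b ⟨m', hm', hb⟩
    exact S_le_J (hm'.trans (le_max_right m m')) (mul_mem_S ha hb)) ha hb

theorem mul_mem_J_right {n : ℕ} {a b : Module.End K Fn} (ha : a ∈ J n) (hb : b ∈ J 0) :
    a * b ∈ J n :=
  mul_mem_of (by
    rintro a ⟨m, hm, ha⟩ b ⟨m', _, hb⟩
    exact S_le_J (hm.trans (le_max_left m m')) (mul_mem_S ha hb)) ha hb

theorem mul_mem_Lo {n : ℕ} {a b : Module.End K Fn} (ha : a ∈ Lo n) (hb : b ∈ Lo n) :
    a * b ∈ Lo n :=
  mul_mem_of (by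
    rintro a ⟨m, hm, ha⟩ b ⟨m', hm', hb⟩
    exact S_le_Lo (max_le hm hm') (mul_mem_S ha hb)) ha hb

theorem mul_mem_S_left {n : ℕ} {a b : Module.End K Fn} (ha : a ∈ Lo n) (hb : b ∈ S n) :
    a * b ∈ S n :=
  mul_mem_of (t := S n) (by
    rintro a ⟨m, hm, ha⟩ b hb
    have := mul_mem_S ha hb
    rwa [max_eq_right hm] at this) ha (AddSubgroup.subset_closure hb)

theorem mul_mem_S_right {n : ℕ} {a b : Module.End K Fn} (ha : a ∈ S n) (hb : b ∈ Lo n) :
    a * b ∈ S n :=
  mul_mem_of (s := S n) (by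
    rintro a ha b ⟨m, hm, hb⟩
    have := mul_mem_S ha hb
    rwa [max_eq_left hm] at this) (AddSubgroup.subset_closure ha) hb

/-- The ring: all sums of elements of the `S n`. -/
def B : Subring (Module.End K Fn) where
  carrier := J 0
  mul_mem' := fun ha hb => mul_mem_J_left ha hb
  one_mem' := S_le_J le_rfl one_mem_S
  add_mem' := fun ha hb => (J 0).add_mem ha hb
  zero_mem' := (J 0).zero_mem
  neg_mem' := fun ha => (J 0).neg_mem ha

theorem mem_B {T : Module.End K Fn} : T ∈ B ↔ T ∈ J 0 := Iff.rfl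

theorem Lo_le_B {n : ℕ} {T : Module.End K Fn} (hT : T ∈ Lo n) : T ∈ B := by
  rw [mem_B]
  refine (AddSubgroup.closure_le _).2 ?_ hT
  rintro T ⟨m, _, hT⟩
  exact S_le_J (Nat.zero_le m) hT

theorem J_le_B {n : ℕ} {T : Module.End K Fn} (hT : T ∈ J n) : T ∈ B :=
  J_anti (Nat.zero_le n) hT

theorem exists_Lo {T : Module.End K Fn} (hT : T ∈ B) : ∃ n, T ∈ Lo n := by
  rw [mem_B] at hT
  induction hT using AddSubgroup.closure_induction with
  | mem a ha =>
    obtain ⟨m, _, ha⟩ := ha
    exact ⟨m, S_le_Lo le_rfl ha⟩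
  | zero => exact ⟨0, (Lo 0).zero_mem⟩
  | add x y _ _ hx hy =>
    obtain ⟨n, hn⟩ := hx
    obtain ⟨m, hm⟩ := hy
    exact ⟨max n m, (Lo _).add_mem (Lo_mono (le_max_left _ _) hn) (Lo_mono (le_max_right _ _) hm)⟩
  | neg x _ hx =>
    obtain ⟨n, hn⟩ := hx
    exact ⟨n, (Lo _).neg_mem hn⟩

/-- Every element is the sum of an element of `Lo n` and an element of `J (n+1)`. -/
theorem exists_decomp {T : Module.End K Fn} (hT : T ∈ B) (n : ℕ) :
    ∃ a ∈ Lo n, ∃ b ∈ J (n + 1), T = a + b := by
  rw [mem_B] at hT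
  induction hT using AddSubgroup.closure_induction with
  | mem a ha =>
    obtain ⟨m, _, ha⟩ := ha
    rcases Nat.lt_or_ge n m with h | h
    · exact ⟨0, (Lo _).zero_mem, a, S_le_J h ha, (zero_add _).symm⟩
    · exact ⟨a, S_le_Lo h ha, 0, (J _).zero_mem, (add_zero _).symm⟩
  | zero => exact ⟨0, (Lo _).zero_mem, 0, (J _).zero_mem, (add_zero _).symm⟩
  | add x y _ _ hx hy =>
    obtain ⟨a, ha, b, hb, rfl⟩ := hx
    obtain ⟨a', ha', b', hb', rfl⟩ := hy
    exact ⟨a + a', (Lo _).add_mem ha ha', b + b', (J _).add_mem hb hb', by abel⟩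
  | neg x _ hx =>
    obtain ⟨a, ha, b, hb, rfl⟩ := hx
    exact ⟨-a, (Lo _).neg_mem ha, -b, (J _).neg_mem hb, by abel⟩

theorem Lo_succ {n : ℕ} {T : Module.End K Fn} (hT : T ∈ Lo (n + 1)) :
    ∃ a ∈ Lo n, ∃ b ∈ S (n + 1), T = a + b := by
  induction hT using AddSubgroup.closure_induction with
  | mem a ha =>
    obtain ⟨m, hm, ha⟩ := ha
    rcases Nat.lt_or_ge n m with h | h
    · obtain rfl : m = n + 1 := le_antisymm hm h
      exact ⟨0, (Lo _).zero_mem, a, ha, (zero_add _).symm⟩
    · exact ⟨a, S_le_Lo h ha, 0, (S _).zero_mem, (add_zero _).symm⟩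
  | zero => exact ⟨0, (Lo _).zero_mem, 0, (S _).zero_mem, (add_zero _).symm⟩
  | add x y _ _ hx hy =>
    obtain ⟨a, ha, b, hb, rfl⟩ := hx
    obtain ⟨a', ha', b', hb', rfl⟩ := hy
    exact ⟨a + a', (Lo _).add_mem ha ha', b + b', (S _).add_mem hb hb', by abel⟩
  | neg x _ hx =>
    obtain ⟨a, ha, b, hb, rfl⟩ := hx
    exact ⟨-a, (Lo _).neg_mem ha, -b, (S _).neg_mem hb, by abel⟩

theorem Lo_zero {T : Module.End K Fn} (hT : T ∈ Lo 0) : T ∈ S 0 := by
  refine (AddSubgroup.closure_le (S 0)).2 ?_ hT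
  rintro T ⟨m, hm, hT⟩
  obtain rfl : m = 0 := Nat.le_zero.1 hm
  exact hT

/-! ### The ring is von Neumann regular -/

/-- Normal form: the words `w_i` may be taken pairwise different (modulo `n`). -/
theorem normal_form {n : ℕ} {T : Module.End K Fn} (hT : T ∈ S n) :
    ∃ (W : Finset Sq) (t : Sq → Fn), (∀ w ∈ W, splice n w 0 = w) ∧ (∀ w, Dep n (t w)) ∧
      ∀ (φ : Fn) (x : Sq), T φ x = ∑ w ∈ W, t w x * φ (splice n w x) := by
  classical
  obtain ⟨ι, _, w, t, ht, hT⟩ := hT
  refine ⟨Finset.univ.image fun i => splice n (w i) 0,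
    fun v x => ∑ i ∈ Finset.univ.filter (fun i => splice n (w i) 0 = v), t i x, ?_, ?_, ?_⟩
  · intro v hv
    obtain ⟨i, -, rfl⟩ := Finset.mem_image.1 hv
    funext l
    simp only [splice]
    split_ifs <;> rfl
  · intro v x y hxy
    exact Finset.sum_congr rfl fun i _ => ht i x y hxy
  · intro φ x
    rw [hT]
    rw [← Finset.sum_fiberwise_of_maps_to (s := Finset.univ)
      (t := Finset.univ.image fun i => splice n (w i) 0) (g := fun i => splice n (w i) 0)
      (fun i _ => Finset.mem_image_of_mem _ (Finset.mem_univ i))]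
    refine Finset.sum_congr rfl fun v _ => ?_
    rw [Finset.sum_mul]
    refine Finset.sum_congr rfl fun i hi => ?_
    rw [← (Finset.mem_filter.1 hi).2]
    congr 2
    funext l
    simp only [splice]
    split_ifs <;> rfl

/-- A linear map has a quasi-inverse. -/
theorem exists_qinv {V W : Type} [AddCommGroup V] [Module K V] [AddCommGroup W] [Module K W]
    (f : V →ₗ[K] W) : ∃ g : W →ₗ[K] V, ∀ v, f (g (f v)) = f v := by
  obtain ⟨s, hs⟩ := f.rangeRestrict.exists_rightInverse_of_surjective f.range_rangeRestrict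
  obtain ⟨π, hπ⟩ := (LinearMap.range f).subtype.exists_leftInverse_of_injective
    (Submodule.ker_subtype _)
  refine ⟨s ∘ₗ π, fun v => ?_⟩
  have h1 : π (f v) = f.rangeRestrict v := LinearMap.congr_fun hπ (f.rangeRestrict v)
  have h2 : f.rangeRestrict (s (f.rangeRestrict v)) = f.rangeRestrict v :=
    LinearMap.congr_fun hs _
  change f (s (π (f v))) = f v
  rw [h1]
  exact congrArg Subtype.val h2

theorem S_regular {n : ℕ} {T : Module.End K Fn} (hT : T ∈ S n) :
    ∃ Q ∈ S n, T * Q * T = T := by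
  classical
  obtain ⟨W, t, hW, ht, hT⟩ := normal_form hT
  -- the finite set of values
  let V := W → K
  let τ : Sq → V := fun x w => t w x
  let ι := {v : V // ∃ x, τ x = v}
  let p : ι → Sq := fun v => v.2.choose
  have hp : ∀ v : ι, τ (p v) = v.1 := fun v => v.2.choose_spec
  let A : (ι → K) →ₗ[K] V := Fintype.linearCombination K (fun v : ι => v.1)
  obtain ⟨C, hC⟩ := exists_qinv A
  have hA : ∀ x, A (C (τ x)) = τ x := by
    intro x
    have h1 : A (Pi.single ⟨τ x, x, rfl⟩ 1) = τ x := by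
      rw [Fintype.linearCombination_apply_single, one_smul]
    rw [← h1, hC]
  let r : ι → Fn := fun v x => ∑ w : W, if (∀ i < n, x i = w.1 i) then C (Pi.single w 1) v else 0
  have hr : ∀ v, Dep n (r v) := by
    intro v x y hxy
    refine Finset.sum_congr rfl fun w _ => ?_
    have : (∀ i < n, x i = w.1 i) ↔ (∀ i < n, y i = w.1 i) :=
      ⟨fun h i hi => (hxy i hi).symm.trans (h i hi), fun h i hi => (hxy i hi).trans (h i hi)⟩
    simp only [this]
  have hrw : ∀ (v : ι) (w : W) (x : Sq), r v (splice n w.1 x) = C (Pi.single w 1) v := by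
    intro v w x
    change (∑ w' : W, if (∀ i < n, splice n w.1 x i = w'.1 i) then C (Pi.single w' 1) v else 0) = _
    rw [Finset.sum_eq_single w]
    · rw [if_pos fun i hi => splice_lt hi _ _]
    · intro w' _ hne
      rw [if_neg]
      intro h
      apply hne
      apply Subtype.ext
      rw [← hW w'.1 w'.2, ← hW w.1 w.2]
      funext i
      simp only [splice]
      split_ifs with hi
      · rw [← h i hi, splice_lt hi]
      · rfl
    · intro h
      exact absurd (Finset.mem_univ _) h
  let Q : Module.End K Fn :=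
    { toFun := fun φ x => ∑ v, r v x * φ (splice n (p v) x)
      map_add' := by
        intro φ ψ
        funext x
        simp only [Pi.add_apply, mul_add, Finset.sum_add_distrib]
      map_smul' := by
        intro c φ
        funext x
        simp only [Pi.smul_apply, smul_eq_mul, RingHom.id_apply, Finset.mul_sum]
        exact Finset.sum_congr rfl fun v _ => by ring }
  have hQ : ∀ φ x, Q φ x = ∑ v, r v x * φ (splice n (p v) x) := fun _ _ => rfl
  refine ⟨Q, ⟨ι, inferInstance, p, r, hr, hQ⟩, ?_⟩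
  refine LinearMap.ext fun φ => funext fun x => ?_
  rw [Module.End.mul_apply, Module.End.mul_apply]
  have hT' : ∀ φ x, T φ x = ∑ w : W, τ x w * φ (splice n w.1 x) := by
    intro φ x
    rw [hT, ← Finset.sum_coe_sort]
  have h1 : ∀ w : W, Q (T φ) (splice n w.1 x) =
      ∑ v, C (Pi.single w 1) v * ∑ w' : W, v.1 w' * φ (splice n w'.1 x) := by
    intro w
    rw [hQ]
    refine Finset.sum_congr rfl fun v _ => ?_
    rw [hrw, splice_of_le le_rfl, hT']
    congr 1
    refine Finset.sum_congr rfl fun w' _ => ?_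
    rw [splice_of_le le_rfl]
    congr 1
    rw [← hp v]
    exact ht w'.1 _ _ fun i hi => splice_lt hi _ _
  rw [hT', hT']
  simp only [h1]
  -- both sides are the value of a linear functional at `A (C (τ x))` and `τ x`
  let ev : V →ₗ[K] K := Fintype.linearCombination K (fun w : W => φ (splice n w.1 x))
  have hev : ∀ y : V, ev y = ∑ w' : W, y w' * φ (splice n w'.1 x) := fun y => by
    rw [Fintype.linearCombination_apply]
    rfl
  have h3 : ∀ w : W, ∑ v, C (Pi.single w 1) v * ∑ w' : W, v.1 w' * φ (splice n w'.1 x) =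
      ev (A (C (Pi.single w 1))) := by
    intro w
    have e1 : A (C (Pi.single w 1)) = ∑ v : ι, C (Pi.single w 1) v • v.1 :=
      Fintype.linearCombination_apply _ _ _
    rw [e1, map_sum]
    refine Finset.sum_congr rfl fun v _ => ?_
    rw [map_smul, hev, smul_eq_mul]
  simp only [h3]
  have h4 : ∑ w : W, τ x w * ev (A (C (Pi.single w 1))) = ev (A (C (τ x))) := by
    have : τ x = ∑ w : W, τ x w • (Pi.single w (1 : K) : V) := by
      funext w'
      rw [Finset.sum_apply, Finset.sum_eq_single w']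
      · simp
      · intro w _ hne
        simp [hne.symm]
      · intro h
        exact absurd (Finset.mem_univ _) h
    conv_rhs => rw [this]
    simp only [map_sum, map_smul, smul_eq_mul]
  rw [h4, hA, hev]

theorem ring_id {R : Type} [Ring R] (T q z : R) :
    T * (q + (1 - q * T) * z * (1 - T * q)) * T =
      T * q * T + (T - T * q * T) * z * (T - T * q * T) := by
  noncomm_ring

theorem Lo_regular (n : ℕ) : ∀ T ∈ Lo n, ∃ Q ∈ Lo n, T * Q * T = T := by
  induction n with
  | zero =>
    intro T hT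
    obtain ⟨Q, hQ, h⟩ := S_regular (Lo_zero hT)
    exact ⟨Q, S_le_Lo le_rfl hQ, h⟩
  | succ n ih =>
    intro T hT
    obtain ⟨a, ha, b, hb, rfl⟩ := Lo_succ hT
    obtain ⟨q, hq, hqa⟩ := ih a ha
    have ha' : a ∈ Lo (n + 1) := Lo_mono n.le_succ ha
    have hq' : q ∈ Lo (n + 1) := Lo_mono n.le_succ hq
    have hb' : b ∈ Lo (n + 1) := S_le_Lo le_rfl hb
    have hu : (a + b) - (a + b) * q * (a + b) ∈ S (n + 1) := by
      have : (a + b) - (a + b) * q * (a + b) =
          b - (a * q * b + b * (q * a) + b * (q * b)) := by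
        have h1 : (a + b) * q * (a + b) = a * q * a + (a * q * b + b * (q * a) + b * (q * b)) := by
          noncomm_ring
        rw [h1, hqa]
        abel
      rw [this]
      exact (S _).sub_mem hb ((S _).add_mem ((S _).add_mem
        (mul_mem_S_left (mul_mem_Lo ha' hq') hb) (mul_mem_S_right hb (mul_mem_Lo hq' ha')))
        (mul_mem_S_right hb (mul_mem_Lo hq' hb')))
    obtain ⟨z, hz, hzu⟩ := S_regular hu
    have hz' : z ∈ Lo (n + 1) := S_le_Lo le_rfl hz
    have hT' : a + b ∈ Lo (n + 1) := hT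
    generalize hTdef : a + b = T at *
    have h1 : (1 : Module.End K Fn) ∈ Lo (n + 1) := S_le_Lo (Nat.zero_le _) one_mem_S
    refine ⟨q + (1 - q * T) * z * (1 - T * q), (Lo _).add_mem hq'
      (mul_mem_Lo (mul_mem_Lo ((Lo _).sub_mem h1 (mul_mem_Lo hq' hT')) hz')
        ((Lo _).sub_mem h1 (mul_mem_Lo hT' hq'))), ?_⟩
    rw [ring_id, hzu]
    abel

theorem B_regular (a : B) : ∃ x : B, a * x * a = a := by
  obtain ⟨a, ha⟩ := a
  obtain ⟨n, hn⟩ := exists_Lo ha
  obtain ⟨q, hq, h⟩ := Lo_regular n a hn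
  exact ⟨⟨q, Lo_le_B hq⟩, Subtype.ext h⟩

theorem Bop_regular (a : Bᵐᵒᵖ) : ∃ x : Bᵐᵒᵖ, a * x * a = a := by
  obtain ⟨x, hx⟩ := B_regular a.unop
  refine ⟨op x, ?_⟩
  apply MulOpposite.unop_injective
  rw [unop_mul, unop_mul, unop_op, ← mul_assoc, hx]

/-! ### Left modules: a countable set of operators suffices -/

/-- The operators `φ ↦ (x ↦ ∑_i φ(splice n w_i x))`. -/
def IsC (n : ℕ) (T : Module.End K Fn) : Prop :=
  ∃ (ι : Type) (_ : Fintype ι) (w : ι → Sq), ∀ (φ : Fn) (x : Sq), T φ x = ∑ i, φ (splice n (w i) x)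

theorem IsC.mem_S {n : ℕ} {T : Module.End K Fn} (hT : IsC n T) : T ∈ S n := by
  obtain ⟨ι, _, w, hT⟩ := hT
  exact ⟨ι, inferInstance, w, fun _ _ => 1, fun _ _ _ _ => rfl, fun φ x => by simp [hT]⟩

theorem IsC.mem_B {n : ℕ} {T : Module.End K Fn} (hT : IsC n T) : T ∈ B :=
  S_le_J (Nat.zero_le n) hT.mem_S

theorem K_cases (a : K) : a = 0 ∨ a = 1 := by
  revert a
  decide

theorem K_neg (a : K) : -a = a := by
  revert a
  decide

/-- These operators form an additive group. -/
def CG (n : ℕ) : AddSubgroup (Module.End K Fn) where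
  carrier := {T | IsC n T}
  zero_mem' := ⟨Empty, inferInstance, fun i => i.elim, fun φ x => by simp⟩
  add_mem' := by
    rintro T Q ⟨ι, _, w, hT⟩ ⟨κ, _, w', hQ⟩
    refine ⟨ι ⊕ κ, inferInstance, Sum.elim w w', fun φ x => ?_⟩
    rw [LinearMap.add_apply, Pi.add_apply, hT, hQ, Fintype.sum_sum_type]
    rfl
  neg_mem' := by
    rintro T ⟨ι, _, w, hT⟩
    refine ⟨ι, inferInstance, w, fun φ x => ?_⟩
    rw [LinearMap.neg_apply, Pi.neg_apply, K_neg, hT]

theorem IsC.mul {n : ℕ} {c T : Module.End K Fn} (hc : IsC n c) (hT : T ∈ Lo n) :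
    IsC n (c * T) := by
  classical
  have key : c * T ∈ CG n := by
    refine mul_mem_of (s := {c | IsC n c}) ?_ (AddSubgroup.subset_closure hc) hT
    rintro c ⟨ι, _, w, hc⟩ T ⟨m, hm, κ, _, u, t, ht, hT⟩
    refine ⟨{p : ι × κ // t p.2 (w p.1) = 1}, inferInstance,
      fun p => splice m (u p.1.2) (w p.1.1), fun φ x => ?_⟩
    have h1 : ∀ p : ι × κ, t p.2 (splice n (w p.1) x) *
        φ (splice m (u p.2) (splice n (w p.1) x)) =
        if t p.2 (w p.1) = 1 then φ (splice n (splice m (u p.2) (w p.1)) x) else 0 := by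
      intro p
      have e1 : t p.2 (splice n (w p.1) x) = t p.2 (w p.1) :=
        ht p.2 _ _ fun i hi => splice_lt (hi.trans_le hm) _ _
      rw [e1, splice_of_ge hm]
      rcases K_cases (t p.2 (w p.1)) with h | h
      · rw [h, if_neg (by decide), zero_mul]
      · rw [h, if_pos rfl, one_mul]
    have h2 : (c * T) φ x = ∑ p : ι × κ, t p.2 (splice n (w p.1) x) *
        φ (splice m (u p.2) (splice n (w p.1) x)) := by
      rw [Module.End.mul_apply, hc, Fintype.sum_prod_type]
      exact Finset.sum_congr rfl fun i _ => hT _ _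
    rw [h2]
    simp only [h1]
    rw [← Finset.sum_filter]
    exact (Finset.sum_subtype (Finset.univ.filter fun p : ι × κ => t p.2 (w p.1) = 1)
      (fun p => by simp) (fun p => φ (splice n (splice m (u p.2) (w p.1)) x)))
  exact key

/-- The sequence of a finite word. -/
def seqOf (l : List ℕ) : Sq := fun i => l.getD i 0

/-- A countable family of operators. -/
def cop (n : ℕ) (L : List (List ℕ)) : Module.End K Fn where
  toFun φ x := (L.map fun l => φ (splice n (seqOf l) x)).sum
  map_add' φ ψ := by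
    funext x
    induction L with
    | nil => simp
    | cons l L ih =>
      simp only [List.map_cons, List.sum_cons, Pi.add_apply] at ih ⊢
      rw [ih]
      ring
  map_smul' r φ := by
    funext x
    induction L with
    | nil => simp
    | cons l L ih =>
      simp only [List.map_cons, List.sum_cons, Pi.smul_apply, smul_eq_mul, RingHom.id_apply]
        at ih ⊢
      rw [ih]
      ring

theorem cop_apply (n : ℕ) (L : List (List ℕ)) (φ : Fn) (x : Sq) :
    cop n L φ x = (L.map fun l => φ (splice n (seqOf l) x)).sum := rfl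

theorem isC_cop (n : ℕ) (L : List (List ℕ)) : IsC n (cop n L) := by
  refine ⟨Fin L.length, inferInstance, fun i => seqOf (L.get i), fun φ x => ?_⟩
  rw [cop_apply, ← Fin.sum_univ_fun_getElem]
  rfl

theorem IsC.eq_cop {n : ℕ} {c : Module.End K Fn} (hc : IsC n c) : ∃ L, c = cop n L := by
  obtain ⟨ι, _, w, hc⟩ := hc
  refine ⟨(Finset.univ : Finset ι).toList.map fun i => (List.range n).map (w i), ?_⟩
  refine LinearMap.ext fun φ => funext fun x => ?_
  rw [hc, cop_apply, List.map_map]
  have h1 : ∀ i, splice n (seqOf ((List.range n).map (w i))) x = splice n (w i) x := by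
    intro i
    funext l
    simp only [splice]
    split_ifs with h
    · simp [seqOf, h]
    · rfl
  rw [← Finset.sum_map_toList]
  congr 1
  refine List.map_congr_left fun i _ => ?_
  simp only [Function.comp]
  rw [h1]

/-- Elements of `S m` factor through operators of the countable family of any level `n ≤ m`. -/
theorem factor_S {m n : ℕ} (h : n ≤ m) {N : Type} [AddCommGroup N] [Module B N] (z : N)
    (hz : ∀ c (hc : IsC n c), (⟨c, hc.mem_B⟩ : B) • z = 0) (T : Module.End K Fn) (hT : T ∈ S m)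
    (hTB : T ∈ B) : (⟨T, hTB⟩ : B) • z = 0 := by
  classical
  obtain ⟨ι, _, w, t, ht, hT⟩ := hT
  let c : ι → Module.End K Fn := fun i =>
    { toFun := fun φ x => φ (splice n (w i) x)
      map_add' := fun _ _ => rfl
      map_smul' := fun _ _ => rfl }
  have hc : ∀ i, IsC n (c i) := fun i => ⟨Unit, inferInstance, fun _ => w i, fun φ x => by
    simp [c]⟩
  let q : ι → Module.End K Fn := fun i =>
    { toFun := fun φ x => t i x * φ (splice m (w i) x)
      map_add' := fun φ ψ => by
        funext x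
        simp only [Pi.add_apply, mul_add]
      map_smul' := fun r φ => by
        funext x
        simp only [Pi.smul_apply, smul_eq_mul, RingHom.id_apply]
        ring }
  have hq : ∀ i, q i ∈ S m := fun i => ⟨Unit, inferInstance, fun _ => w i, fun _ => t i,
    fun _ => ht i, fun φ x => by simp [q]⟩
  have hqB : ∀ i, q i ∈ B := fun i => S_le_J (Nat.zero_le m) (hq i)
  have hsum : (⟨T, hTB⟩ : B) = ∑ i, (⟨q i, hqB i⟩ : B) * ⟨c i, (hc i).mem_B⟩ := by
    apply Subtype.ext
    rw [AddSubmonoidClass.coe_finsetSum]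
    refine LinearMap.ext fun φ => funext fun x => ?_
    change T φ x = _
    rw [hT, LinearMap.sum_apply, Finset.sum_apply]
    refine Finset.sum_congr rfl fun i _ => ?_
    change _ = t i x * φ (splice n (w i) (splice m (w i) x))
    rw [splice_of_ge h]
    congr 3
    funext l
    simp only [splice]
    split_ifs <;> rfl
  rw [hsum, Finset.sum_smul]
  refine Finset.sum_eq_zero fun i _ => ?_
  rw [mul_smul, hz (c i) (hc i), smul_zero]

/-- `z` is killed by the operators of level `n`. -/
def Kills {N : Type} [AddCommGroup N] [Module B N] (n : ℕ) (z : N) : Prop :=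
  ∀ c (hc : IsC n c), (⟨c, hc.mem_B⟩ : B) • z = 0

theorem Kills.smulJ {N : Type} [AddCommGroup N] [Module B N] {n : ℕ} {z : N} (hz : Kills n z)
    (T : B) (hT : (T : Module.End K Fn) ∈ J n) : T • z = 0 := by
  have : ∀ T' : Module.End K Fn, T' ∈ J n → ∀ h : T' ∈ B, (⟨T', h⟩ : B) • z = 0 := by
    intro T' hT'
    induction hT' using AddSubgroup.closure_induction with
    | mem a ha =>
      intro h
      obtain ⟨m, hm, ha⟩ := ha
      exact factor_S hm z hz a ha h
    | zero =>
      intro h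
      exact zero_smul B z
    | add x y hx hy hx' hy' =>
      intro h
      have hxB : x ∈ B := J_le_B hx
      have hyB : y ∈ B := J_le_B hy
      have : (⟨x + y, h⟩ : B) = ⟨x, hxB⟩ + ⟨y, hyB⟩ := rfl
      rw [this, add_smul, hx' hxB, hy' hyB, add_zero]
    | neg x hx hx' =>
      intro h
      have hxB : x ∈ B := J_le_B hx
      have : (⟨-x, h⟩ : B) = -⟨x, hxB⟩ := rfl
      rw [this, neg_smul, hx' hxB, neg_zero]
  exact this T hT T.2

/-- In a uniform module, if one nonzero element is killed by level `n` then `J n` kills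
everything. -/
theorem Kills.all {N : Type} [AddCommGroup N] [Module B N]
    (hu : ∀ x y : N, x ≠ 0 → y ≠ 0 → ∃ a b : B, a • x = b • y ∧ a • x ≠ 0)
    {n : ℕ} {z : N} (hz : Kills n z) (hz0 : z ≠ 0) (T : B)
    (hT : (T : Module.End K Fn) ∈ J n) (y : N) : T • y = 0 := by
  by_contra hne
  obtain ⟨a, b, hab, hne'⟩ := hu z (T • y) hz0 hne
  obtain ⟨q, hq⟩ := B_regular (b * T)
  have h1 : (b * T) • y = a • z := by rw [mul_smul, hab]
  have h2 : ((b * T * q * a : B) : Module.End K Fn) ∈ J n := by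
    rw [Subring.coe_mul, Subring.coe_mul, Subring.coe_mul]
    exact mul_mem_J_right (mul_mem_J_right (mul_mem_J_left b.2 hT) q.2) a.2
  have h3 := hz.smulJ _ h2
  apply hne'
  rw [← h1]
  conv_lhs => rw [← hq]
  rw [mul_smul _ (b * T), h1, ← mul_smul, h3]

/-- Over `B`, the annihilator of a nonzero element of a uniform module is determined by the
countable family of operators. -/
theorem ann_determined {N N' : Type} [AddCommGroup N] [Module B N] [AddCommGroup N'] [Module B N']
    (hu : ∀ x y : N, x ≠ 0 → y ≠ 0 → ∃ a b : B, a • x = b • y ∧ a • x ≠ 0)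
    (hu' : ∀ x y : N', x ≠ 0 → y ≠ 0 → ∃ a b : B, a • x = b • y ∧ a • x ≠ 0)
    (x : N) (x' : N') (hx : x ≠ 0)
    (h : ∀ n L, (⟨cop n L, (isC_cop n L).mem_B⟩ : B) • x = 0 ↔
      (⟨cop n L, (isC_cop n L).mem_B⟩ : B) • x' = 0) (T : B) (hT : T • x = 0) : T • x' = 0 := by
  have hC : ∀ n c (hc : IsC n c), (⟨c, hc.mem_B⟩ : B) • x = 0 ↔ (⟨c, hc.mem_B⟩ : B) • x' = 0 := by
    intro n c hc
    obtain ⟨L, rfl⟩ := hc.eq_cop
    exact h n L
  by_contra hne
  -- the key step at a level n
  have step : ∀ n : ℕ, ¬ Kills n (T • x') → (∀ Q : B, (Q : Module.End K Fn) ∈ J (n + 1) →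
      Q • x = 0 ∧ Q • x' = 0) → False := by
    intro n hn hJ
    obtain ⟨a, ha, b, hb, hab⟩ := exists_decomp T.2 n
    have haB : a ∈ B := Lo_le_B ha
    have hbB : b ∈ B := J_le_B hb
    have hTab : T = ⟨a, haB⟩ + ⟨b, hbB⟩ := Subtype.ext hab
    have hb0 := hJ ⟨b, hbB⟩ hb
    have hax : (⟨a, haB⟩ : B) • x = 0 := by
      rw [hTab, add_smul, hb0.1, add_zero] at hT
      exact hT
    have hax' : T • x' = (⟨a, haB⟩ : B) • x' := by
      rw [hTab, add_smul, hb0.2, add_zero]
    apply hn
    intro c hc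
    have hca := hc.mul ha
    have e : (⟨c * a, hca.mem_B⟩ : B) = ⟨c, hc.mem_B⟩ * ⟨a, haB⟩ := rfl
    have h1 := (hC n _ hca).1 (by rw [e, mul_smul, hax, smul_zero])
    rw [e, mul_smul, ← hax'] at h1
    exact h1
  have h0 : ¬ Kills 0 (T • x') := by
    intro hk
    have h1 := hk.smulJ 1 (S_le_J le_rfl one_mem_S)
    rw [one_smul] at h1
    exact hne h1
  by_cases hex : ∃ m, Kills m (T • x')
  · classical
    have hm : Kills (Nat.find hex) (T • x') := Nat.find_spec hex
    have hmin : ∀ k < Nat.find hex, ¬ Kills k (T • x') := fun k hk => Nat.find_min hex hk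
    set m := Nat.find hex with hmdef
    rcases Nat.eq_zero_or_pos m with h' | h'
    · rw [h'] at hm
      exact h0 hm
    · obtain ⟨n, hn⟩ : ∃ n, m = n + 1 := ⟨m - 1, by omega⟩
      refine step n (hmin n (by omega)) fun Q hQ => ?_
      rw [hn] at hm
      have h2 := fun Q' hQ' y => hm.all hu' hne Q' hQ' y
      have h3 : Kills (n + 1) x := fun c hc =>
        (hC _ c hc).2 (h2 _ (S_le_J le_rfl hc.mem_S) x')
      exact ⟨h3.all hu hx Q hQ x, h2 Q hQ x'⟩
  · push Not at hex
    obtain ⟨n, hn⟩ := exists_Lo T.2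
    -- here the component in J (n+1) may be taken to be zero
    apply hex n
    intro c hc
    have hca := hc.mul hn
    have e : (⟨c * (T : Module.End K Fn), hca.mem_B⟩ : B) = ⟨c, hc.mem_B⟩ * T := rfl
    have h1 := (hC n _ hca).1 (by rw [e, mul_smul, hT, smul_zero])
    rw [e, mul_smul] at h1
    exact h1

/-! ### Right modules: the functionals -/

/-- `ψ` does not depend on the first `n` terms. -/
def Tail (n : ℕ) (ψ : Fn) : Prop := ∀ x y : Sq, (∀ i, n ≤ i → x i = y i) → ψ x = ψ y

/-- Integration of the `n`-th variable with respect to the functional `f`. -/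
def P (f : Module.Dual K (ℕ → K)) (n : ℕ) : Fn →ₗ[K] Fn where
  toFun φ x := f fun j => φ (Function.update x n j)
  map_add' φ ψ := by
    funext x
    exact map_add f _ _
  map_smul' r φ := by
    funext x
    exact map_smul f r _

theorem P_apply (f : Module.Dual K (ℕ → K)) (n : ℕ) (φ : Fn) (x : Sq) :
    P f n φ x = f fun j => φ (Function.update x n j) := rfl

/-- Integration of the first `n` variables, the last one first. -/
def F (f : Module.Dual K (ℕ → K)) : ℕ → (Fn →ₗ[K] K)
  | 0 => LinearMap.proj 0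
  | n + 1 => F f n ∘ₗ P f n

theorem F_succ (f : Module.Dual K (ℕ → K)) (n : ℕ) (φ : Fn) : F f (n + 1) φ = F f n (P f n φ) :=
  rfl

theorem P_dep {f : Module.Dual K (ℕ → K)} (hf : f (fun _ => 1) = 1) {n : ℕ} {φ : Fn}
    (hφ : Dep n φ) : P f n φ = φ := by
  funext x
  rw [P_apply]
  have h1 : (fun j => φ (Function.update x n j)) = φ x • (fun _ : ℕ => (1 : K)) := by
    funext j
    rw [Pi.smul_apply, smul_eq_mul, mul_one]
    exact hφ _ _ fun i hi => Function.update_of_ne hi.ne _ _
  rw [h1, map_smul, hf, smul_eq_mul, mul_one]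

theorem F_dep {f : Module.Dual K (ℕ → K)} (hf : f (fun _ => 1) = 1) {n m : ℕ} (h : n ≤ m) {φ : Fn}
    (hφ : Dep n φ) : F f m φ = F f n φ := by
  induction m, h using Nat.le_induction with
  | base => rfl
  | succ m hm ih => rw [F_succ, P_dep hf (hφ.mono hm), ih]

theorem dep_one (n : ℕ) : Dep n (fun _ => 1) := fun _ _ _ => rfl

theorem F_one {f : Module.Dual K (ℕ → K)} (hf : f (fun _ => 1) = 1) (n : ℕ) :
    F f n (fun _ => 1) = 1 :=
  F_dep hf (Nat.zero_le n) (dep_one 0)

theorem P_mul (f : Module.Dual K (ℕ → K)) {n m : ℕ} (h : n ≤ m) {α : Fn} (hα : Dep n α) (ψ : Fn) :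
    P f m (α * ψ) = α * P f m ψ := by
  funext x
  rw [Pi.mul_apply, P_apply, P_apply]
  have h1 : (fun j => (α * ψ) (Function.update x m j)) =
      α x • fun j => ψ (Function.update x m j) := by
    funext j
    rw [Pi.smul_apply, smul_eq_mul, Pi.mul_apply]
    congr 1
    exact hα _ _ fun i hi => Function.update_of_ne (hi.trans_le h).ne _ _
  rw [h1, map_smul, smul_eq_mul]

theorem P_tail (f : Module.Dual K (ℕ → K)) {n : ℕ} (m : ℕ) {ψ : Fn} (hψ : Tail n ψ) :
    Tail n (P f m ψ) := by
  intro x y hxy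
  rw [P_apply, P_apply]
  congr 1
  funext j
  refine hψ _ _ fun i hi => ?_
  rcases eq_or_ne i m with rfl | hne
  · rw [Function.update_self, Function.update_self]
  · rw [Function.update_of_ne hne, Function.update_of_ne hne, hxy i hi]

theorem P_dep_succ (f : Module.Dual K (ℕ → K)) {m : ℕ} {φ : Fn} (hφ : Dep (m + 1) φ) :
    Dep m (P f m φ) := by
  intro x y hxy
  rw [P_apply, P_apply]
  congr 1
  funext j
  refine hφ _ _ fun i hi => ?_
  rcases eq_or_ne i m with rfl | hne
  · rw [Function.update_self, Function.update_self]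
  · rw [Function.update_of_ne hne, Function.update_of_ne hne, hxy i (by omega)]

theorem F_mul {f : Module.Dual K (ℕ → K)} (hf : f (fun _ => 1) = 1) {n m : ℕ} (h : n ≤ m)
    {α : Fn} (hα : Dep n α) {ψ : Fn} (hψ : Tail n ψ) (hψ' : Dep m ψ) :
    F f m (α * ψ) = F f n α * F f m ψ := by
  induction m, h using Nat.le_induction generalizing ψ with
  | base =>
    have h1 : ψ = ψ 0 • fun _ : Sq => (1 : K) := by
      funext x
      rw [Pi.smul_apply, smul_eq_mul, mul_one]
      rw [hψ' x (splice n x 0) fun i hi => (splice_lt hi _ _).symm]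
      exact hψ _ _ fun i hi => splice_ge hi _ _
    have h2 : α * ψ = ψ 0 • α := by
      funext x
      rw [Pi.mul_apply, Pi.smul_apply, smul_eq_mul, mul_comm]
      congr 1
      rw [h1]
      simp
    rw [h2, map_smul]
    conv_rhs => rw [h1, map_smul, F_one hf]
    simp only [smul_eq_mul]
    ring
  | succ m hm ih =>
    rw [F_succ, P_mul f hm hα, F_succ, ih (P_tail f m hψ) (P_dep_succ f hψ')]

theorem Lo_dep {n m : ℕ} {T : Module.End K Fn} (hT : T ∈ Lo n) {α : Fn} (hα : Dep m α) :
    Dep (max m n) (T α) := by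
  induction hT using AddSubgroup.closure_induction with
  | mem T hT =>
    obtain ⟨l, hl, ι, _, w, t, ht, hT⟩ := hT
    intro x y hxy
    rw [hT, hT]
    refine Finset.sum_congr rfl fun i _ => ?_
    rw [ht i x y fun i' hi' => hxy i' (hi'.trans_le (hl.trans (le_max_right _ _)))]
    congr 1
    refine hα _ _ fun i' hi' => ?_
    simp only [splice]
    split_ifs
    · rfl
    · exact hxy i' (hi'.trans_le (le_max_left _ _))
  | zero => exact fun _ _ _ => rfl
  | add S T _ _ h1 h2 =>
    intro x y hxy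
    rw [LinearMap.add_apply, Pi.add_apply, Pi.add_apply, h1 x y hxy, h2 x y hxy]
  | neg T _ h1 =>
    intro x y hxy
    rw [LinearMap.neg_apply, Pi.neg_apply, Pi.neg_apply, h1 x y hxy]

theorem Lo_mul_tail {n : ℕ} {T : Module.End K Fn} (hT : T ∈ Lo n) {ψ : Fn} (hψ : Tail n ψ)
    (α : Fn) : T (α * ψ) = T α * ψ := by
  induction hT using AddSubgroup.closure_induction with
  | mem T hT =>
    obtain ⟨l, hl, ι, _, w, t, ht, hT⟩ := hT
    funext x
    rw [Pi.mul_apply, hT, hT, Finset.sum_mul]
    refine Finset.sum_congr rfl fun i _ => ?_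
    rw [Pi.mul_apply, mul_assoc]
    congr 2
    exact hψ _ _ fun i' hi' => splice_ge (hl.trans hi') _ _
  | zero => exact (zero_mul ψ).symm
  | add S T _ _ h1 h2 =>
    rw [LinearMap.add_apply, h1, h2, LinearMap.add_apply, add_mul]
  | neg T _ h1 =>
    rw [LinearMap.neg_apply, h1, LinearMap.neg_apply, neg_mul]

/-- The operator `φ ↦ (x ↦ α(x) φ(splice n 0 x))`. -/
def Qop (n : ℕ) (α : Fn) : Module.End K Fn where
  toFun φ x := α x * φ (splice n 0 x)
  map_add' φ ψ := by
    funext x
    simp only [Pi.add_apply, mul_add]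
  map_smul' r φ := by
    funext x
    simp only [Pi.smul_apply, smul_eq_mul, RingHom.id_apply]
    ring

theorem Qop_mem {n : ℕ} {α : Fn} (hα : Dep n α) : Qop n α ∈ S n :=
  ⟨Unit, inferInstance, fun _ => 0, fun _ => α, fun _ => hα, fun φ x => by simp [Qop]⟩

theorem Qop_mem_B {n : ℕ} {α : Fn} (hα : Dep n α) : Qop n α ∈ B :=
  S_le_J (Nat.zero_le n) (Qop_mem hα)

theorem Qop_tail (n : ℕ) (φ : Fn) : Tail n (fun x => φ (splice n 0 x)) := by
  intro x y hxy
  have : splice n 0 x = splice n 0 y := by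
    funext i
    rcases Nat.lt_or_ge i n with h | h
    · rw [splice_lt h, splice_lt h]
    · rw [splice_ge h, splice_ge h, hxy i h]
  change φ (splice n 0 x) = φ (splice n 0 y)
  rw [this]

theorem Qop_dep (n : ℕ) {m : ℕ} {φ : Fn} (hφ : Dep m φ) : Dep m (fun x => φ (splice n 0 x)) := by
  intro x y hxy
  refine hφ _ _ fun i hi => ?_
  simp only [splice]
  split_ifs
  · rfl
  · exact hxy i hi

/-- The basic computation. -/
theorem F_Qop {f : Module.Dual K (ℕ → K)} (hf : f (fun _ => 1) = 1) {n m l : ℕ} (h : n ≤ l)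
    (h' : m ≤ l) {T : Module.End K Fn} (hT : T ∈ Lo n) {α : Fn} (hα : Dep n α) {φ : Fn}
    (hφ : Dep m φ) :
    F f l (T (Qop n α φ)) = F f n (T α) * F f l (fun x => φ (splice n 0 x)) := by
  have h1 : Qop n α φ = α * fun x => φ (splice n 0 x) := rfl
  rw [h1, Lo_mul_tail hT (Qop_tail n φ)]
  have h2 := Lo_dep hT hα
  rw [max_self] at h2
  exact F_mul hf h h2 (Qop_tail n φ) ((Qop_dep n hφ).mono h')

/-- The annihilator of the functional: a right ideal of `B`, that is, a left ideal of the opposite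
ring. -/
def I (f : Module.Dual K (ℕ → K)) : Submodule Bᵐᵒᵖ Bᵐᵒᵖ where
  carrier := {s | ∀ (m : ℕ) (α : Fn), Dep m α → ∃ n₀, ∀ n ≥ n₀,
    F f n ((s.unop : Module.End K Fn) α) = 0}
  add_mem' := by
    intro s t hs ht m α hα
    obtain ⟨n, hn⟩ := hs m α hα
    obtain ⟨n', hn'⟩ := ht m α hα
    refine ⟨max n n', fun l hl => ?_⟩
    rw [unop_add, Subring.coe_add, LinearMap.add_apply, map_add,
      hn l ((le_max_left _ _).trans hl), hn' l ((le_max_right _ _).trans hl), add_zero]
  zero_mem' := by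
    intro m α hα
    refine ⟨0, fun n _ => ?_⟩
    rw [unop_zero, Subring.coe_zero, LinearMap.zero_apply, map_zero]
  smul_mem' := by
    intro r s hs m α hα
    obtain ⟨d, hd⟩ := exists_Lo r.unop.2
    obtain ⟨n, hn⟩ := hs _ _ (Lo_dep hd hα)
    refine ⟨n, fun l hl => ?_⟩
    rw [smul_eq_mul, unop_mul, Subring.coe_mul, Module.End.mul_apply]
    exact hn l hl

theorem mem_I {f : Module.Dual K (ℕ → K)} {s : Bᵐᵒᵖ} : s ∈ I f ↔ ∀ (m : ℕ) (α : Fn), Dep m α →
    ∃ n₀, ∀ n ≥ n₀, F f n ((s.unop : Module.End K Fn) α) = 0 := Iff.rfl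

/-- An element outside the ideal. -/
theorem exists_of_notMem {f : Module.Dual K (ℕ → K)} (hf : f (fun _ => 1) = 1) {s : Bᵐᵒᵖ}
    (hs : s ∉ I f) : ∃ n₀, ∀ n ≥ n₀, (s.unop : Module.End K Fn) ∈ Lo n ∧
      ∃ α, Dep n α ∧ F f n ((s.unop : Module.End K Fn) α) = 1 := by
  rw [mem_I] at hs
  push Not at hs
  obtain ⟨m, α, hα, h⟩ := hs
  obtain ⟨d, hd⟩ := exists_Lo s.unop.2
  have h1 := Lo_dep hd hα
  obtain ⟨l, hl, hne⟩ := h (max m d)
  rw [F_dep hf hl h1] at hne
  refine ⟨max m d, fun n hn => ⟨Lo_mono ((le_max_right _ _).trans hn) hd, α,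
    hα.mono ((le_max_left _ _).trans hn), ?_⟩⟩
  rw [F_dep hf hn h1]
  exact (K_cases _).resolve_left hne

/-- The element `op (Qop n 1)`. -/
def Z (n : ℕ) : Bᵐᵒᵖ := op ⟨Qop n fun _ => 1, Qop_mem_B (dep_one n)⟩

theorem Z_notMem {f : Module.Dual K (ℕ → K)} (hf : f (fun _ => 1) = 1) (n : ℕ) : Z n ∉ I f := by
  intro h
  obtain ⟨l, hl⟩ := h 0 (fun _ => 1) (dep_one 0)
  have h1 := hl l le_rfl
  have h2 : ((Z n).unop : Module.End K Fn) (fun _ => 1) = fun _ => 1 := by
    funext x
    change (1 : K) * 1 = 1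
    rw [one_mul]
  rw [h2, F_one hf] at h1
  exact one_ne_zero h1

theorem op_mul_sub_mem {f : Module.Dual K (ℕ → K)} (hf : f (fun _ => 1) = 1) {s : Bᵐᵒᵖ} {n : ℕ}
    (hs : (s.unop : Module.End K Fn) ∈ Lo n) {α : Fn} (hα : Dep n α)
    (h : F f n ((s.unop : Module.End K Fn) α) = 1) :
    op (⟨Qop n α, Qop_mem_B hα⟩ : B) * s - Z n ∈ I f := by
  intro m φ hφ
  refine ⟨max n m, fun l hl => ?_⟩
  have h1 := F_Qop hf ((le_max_left _ _).trans hl) ((le_max_right _ _).trans hl) hs hα hφ
  have h2 : (((op (⟨Qop n α, Qop_mem_B hα⟩ : B) * s - Z n).unop : B) : Module.End K Fn) φ =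
      (s.unop : Module.End K Fn) (Qop n α φ) - fun x => φ (splice n 0 x) := by
    funext x
    change (s.unop : Module.End K Fn) (Qop n α φ) x - 1 * φ (splice n 0 x) = _
    rw [one_mul]
    rfl
  rw [h2, map_sub, h1, h, one_mul, sub_self]

theorem uniform_I {f : Module.Dual K (ℕ → K)} (hf : f (fun _ => 1) = 1) (a b : Bᵐᵒᵖ)
    (ha : a ∉ I f) (hb : b ∉ I f) : ∃ s t : Bᵐᵒᵖ, s * a - t * b ∈ I f ∧ s * a ∉ I f := by
  obtain ⟨n, hn⟩ := exists_of_notMem hf ha
  obtain ⟨m, hm⟩ := exists_of_notMem hf hb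
  obtain ⟨ha', α, hα, hα'⟩ := hn _ (le_max_left n m)
  obtain ⟨hb', β, hβ, hβ'⟩ := hm _ (le_max_right n m)
  have h1 := op_mul_sub_mem hf ha' hα hα'
  have h2 := op_mul_sub_mem hf hb' hβ hβ'
  refine ⟨op (⟨Qop _ α, Qop_mem_B hα⟩ : B), op (⟨Qop _ β, Qop_mem_B hβ⟩ : B), ?_, ?_⟩
  · have := (I f).sub_mem h1 h2
    rwa [sub_sub_sub_cancel_right] at this
  · intro h
    have := (I f).sub_mem h h1
    rw [sub_sub_cancel] at this
    exact Z_notMem hf _ this

/-- The functional can be recovered from the module. -/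
theorem eq_of_common {f g : Module.Dual K (ℕ → K)} (hf : f (fun _ => 1) = 1)
    (hg : g (fun _ => 1) = 1) {N : Type} [AddCommGroup N] [Module Bᵐᵒᵖ N] (x y : N)
    (hx : ∀ s : Bᵐᵒᵖ, s • x = 0 ↔ s ∈ I f) (hy : ∀ s : Bᵐᵒᵖ, s • y = 0 ↔ s ∈ I g)
    (a b : Bᵐᵒᵖ) (hab : a • x = b • y) (hne : a • x ≠ 0) : f = g := by
  have ha : a ∉ I f := fun h => hne ((hx a).2 h)
  have hb : b ∉ I g := fun h => hne (by rw [hab]; exact (hy b).2 h)
  obtain ⟨n₁, hn₁⟩ := exists_of_notMem hf ha
  obtain ⟨d, hd⟩ := exists_Lo b.unop.2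
  set n := max n₁ d with hn
  obtain ⟨haL, α, hα, hα1⟩ := hn₁ n (le_max_left _ _)
  have hbL : (b.unop : Module.End K Fn) ∈ Lo n := Lo_mono (le_max_right _ _) hd
  -- the test operators
  let γ : (ℕ → K) → Fn := fun β x => α x * β (x n)
  have hγ : ∀ β, Dep (n + 1) (γ β) := by
    intro β x y hxy
    simp only [γ]
    rw [hα x y fun i hi => hxy i (by omega), hxy n (by omega)]
  have hβtail : ∀ β : ℕ → K, Tail n (fun x => β (x n)) := fun β x y hxy => by
    simp only [hxy n le_rfl]
  have key : ∀ (f' : Module.Dual K (ℕ → K)) (s : Bᵐᵒᵖ), f' (fun _ => 1) = 1 →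
      (s.unop : Module.End K Fn) ∈ Lo n → ∀ β : ℕ → K,
      (op (⟨Qop (n + 1) (γ β), Qop_mem_B (hγ β)⟩ : B) * s ∈ I f' ↔
        F f' n ((s.unop : Module.End K Fn) α) * f' β = 0) := by
    intro f' s hf' hs β
    have e1 : F f' (n + 1) ((s.unop : Module.End K Fn) (γ β)) =
        F f' n ((s.unop : Module.End K Fn) α) * f' β := by
      have e2 : γ β = α * fun x => β (x n) := rfl
      rw [e2, Lo_mul_tail hs (hβtail β), F_succ, P_mul f' le_rfl (by
        have := Lo_dep hs hα
        rwa [max_self] at this)]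
      have e3 : P f' n (fun x => β (x n)) = f' β • fun _ : Sq => (1 : K) := by
        funext x
        rw [P_apply, Pi.smul_apply, smul_eq_mul, mul_one]
        congr 1
        funext j
        rw [Function.update_self]
      have e4 : (s.unop : Module.End K Fn) α * (f' β • fun _ : Sq => (1 : K)) =
          f' β • (s.unop : Module.End K Fn) α := by
        funext x
        simp only [Pi.mul_apply, Pi.smul_apply, smul_eq_mul, mul_one]
        ring
      rw [e3, e4, map_smul, smul_eq_mul, mul_comm]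
    have hs' : (s.unop : Module.End K Fn) ∈ Lo (n + 1) := Lo_mono n.le_succ hs
    have e5 : ∀ φ : Fn, (((op (⟨Qop (n + 1) (γ β), Qop_mem_B (hγ β)⟩ : B) * s).unop : B) :
        Module.End K Fn) φ = (s.unop : Module.End K Fn) (Qop (n + 1) (γ β) φ) := fun φ => rfl
    constructor
    · intro h
      obtain ⟨l, hl⟩ := h 0 (fun _ => 1) (dep_one 0)
      have h1 := hl (max l (n + 1)) (le_max_left _ _)
      rw [e5, F_Qop hf' (le_max_right _ _) (Nat.zero_le _) hs' (hγ β) (dep_one 0), e1] at h1
      have h2 : F f' (max l (n + 1)) (fun x => (fun _ : Sq => (1 : K)) (splice (n + 1) 0 x)) = 1 :=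
        F_one hf' _
      rw [h2, mul_one] at h1
      exact h1
    · intro h m φ hφ
      refine ⟨max (n + 1) m, fun l hl => ?_⟩
      rw [e5, F_Qop hf' ((le_max_left _ _).trans hl) ((le_max_right _ _).trans hl) hs' (hγ β) hφ,
        e1, h, zero_mul]
  have hiff : ∀ β : ℕ → K, F f n ((a.unop : Module.End K Fn) α) * f β = 0 ↔
      F g n ((b.unop : Module.End K Fn) α) * g β = 0 := by
    intro β
    rw [← key f a hf haL β, ← key g b hg hbL β, ← hx, ← hy, mul_smul, mul_smul, hab]
  have hb1 : F g n ((b.unop : Module.End K Fn) α) = 1 := by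
    rcases K_cases (F g n ((b.unop : Module.End K Fn) α)) with h | h
    · exfalso
      have h1 := (hiff fun _ => 1).2 (by rw [h, zero_mul])
      rw [hα1, hf, one_mul] at h1
      exact one_ne_zero h1
    · exact h
  refine LinearMap.ext fun β => ?_
  have h1 := hiff β
  rw [hα1, hb1, one_mul, one_mul] at h1
  rcases K_cases (f β) with h | h <;> rcases K_cases (g β) with h' | h'
  · rw [h, h']
  · rw [h, h'] at h1
    exact absurd (h1.1 rfl) one_ne_zero
  · rw [h, h'] at h1
    exact absurd (h1.2 rfl) one_ne_zero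
  · rw [h, h']

/-! ### Cardinalities -/

theorem one_notMem_I {f : Module.Dual K (ℕ → K)} (hf : f (fun _ => 1) = 1) : (1 : Bᵐᵒᵖ) ∉ I f := by
  intro h
  have : Z 0 ∈ I f := by
    have := (I f).smul_mem (Z 0) h
    rwa [smul_eq_mul, mul_one] at this
  exact Z_notMem hf 0 this

theorem exists_right (f : {f : Module.Dual K (ℕ → K) // f (fun _ => 1) = 1}) :
    ∃ N : IndecPureInj Bᵐᵒᵖ, Module.Injective Bᵐᵒᵖ N.carrier ∧ ∃ x : N.carrier,
      ∀ s : Bᵐᵒᵖ, s • x = 0 ↔ s ∈ I f.1 :=
  exists_hull (I f.1) (one_notMem_I f.2) (uniform_I f.2)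

theorem right_injective : ∃ Φ : {f : Module.Dual K (ℕ → K) // f (fun _ => 1) = 1} → RightZg B,
    Function.Injective Φ := by
  choose N hN x hx using exists_right
  refine ⟨fun f => cls (N f), fun f g h => ?_⟩
  obtain ⟨e⟩ : Nonempty ((N f).carrier ≃ₗ[Bᵐᵒᵖ] (N g).carrier) := Quotient.exact h
  have hx0 : e (x f) ≠ 0 := by
    intro h0
    have : x f = 0 := e.map_eq_zero_iff.1 h0
    exact one_notMem_I f.2 ((hx f 1).1 (by rw [this, smul_zero]))
  have hy0 : x g ≠ 0 := by
    intro h0
    exact one_notMem_I g.2 ((hx g 1).1 (by rw [h0, smul_zero]))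
  obtain ⟨a, b, hab, hne⟩ := uniform_of_injective (hN g) (N g).indec _ _ hx0 hy0
  refine Subtype.ext (eq_of_common f.2 g.2 (e (x f)) (x g) (fun s => ?_) (hx g) a b hab hne)
  rw [← map_smul, e.map_eq_zero_iff, hx f]

theorem left_injective : ∃ Ψ : LeftZg B → Set (ℕ × List (List ℕ)), Function.Injective Ψ := by
  have hex : ∀ c : LeftZg B, ∃ (N : IndecPureInj B) (x : N.carrier), cls N = c ∧ x ≠ 0 := by
    intro c
    obtain ⟨N, hN⟩ := Quotient.exists_rep c
    obtain ⟨x, hx⟩ := @exists_ne _ N.indec.1 (0 : N.carrier)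
    exact ⟨N, x, hN, hx⟩
  choose N x hN hx using hex
  refine ⟨fun c => {p | (⟨cop p.1 p.2, (isC_cop p.1 p.2).mem_B⟩ : B) • x c = 0}, fun c d h => ?_⟩
  have hi : ∀ c, Module.Injective B (N c).carrier := fun c =>
    injective_of_pinj B_regular (N c).pinj
  have hu : ∀ c, ∀ x y : (N c).carrier, x ≠ 0 → y ≠ 0 → ∃ a b : B, a • x = b • y ∧ a • x ≠ 0 :=
    fun c x y hx hy => uniform_of_injective (hi c) (N c).indec x y hx hy
  have hdata : ∀ n L, (⟨cop n L, (isC_cop n L).mem_B⟩ : B) • x c = 0 ↔
      (⟨cop n L, (isC_cop n L).mem_B⟩ : B) • x d = 0 := by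
    intro n L
    have := congrArg (fun A : Set (ℕ × List (List ℕ)) => (n, L) ∈ A) h
    exact iff_of_eq this
  rw [← hN c, ← hN d]
  apply Quotient.sound
  refine iso_of_ann (hi c) (hi d) (N c).indec (N d).indec (x c) (x d) (hx c) fun s => ⟨?_, ?_⟩
  · exact ann_determined (hu c) (hu d) (x c) (x d) (hx c) hdata s
  · exact ann_determined (hu d) (hu c) (x d) (x c) (hx d) (fun n L => (hdata n L).symm) s

theorem card_functionals :
    Cardinal.continuum < Cardinal.mk {f : Module.Dual K (ℕ → K) // f (fun _ => 1) = 1} := by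
  have h1 : Module.rank K (ℕ → K) = Cardinal.continuum := by
    rw [rank_fun_infinite]
    simp
  have h2 : Cardinal.mk (Module.Dual K (ℕ → K)) = Module.rank K (Module.Dual K (ℕ → K)) :=
    (rank_dual_eq_card_dual_of_aleph0_le_rank (by rw [h1]; exact aleph0_le_continuum)).symm
  have h3 : Cardinal.continuum < Cardinal.mk (Module.Dual K (ℕ → K)) := by
    rw [h2, ← h1]
    have := lift_rank_lt_rank_dual (K := K) (V := ℕ → K) (by rw [h1]; exact aleph0_le_continuum)
    simpa using this
  by_contra hcon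
  push Not at hcon
  let f₀ : Module.Dual K (ℕ → K) := LinearMap.proj 0
  have hf₀ : f₀ (fun _ => 1) = 1 := rfl
  let Θ : Module.Dual K (ℕ → K) → {f : Module.Dual K (ℕ → K) // f (fun _ => 1) = 1} × K :=
    fun f => (⟨f + (1 - f fun _ => 1) • f₀, by
      rw [LinearMap.add_apply, LinearMap.smul_apply, hf₀, smul_eq_mul, mul_one]
      ring⟩, f fun _ => 1)
  have hΘ : Function.Injective Θ := by
    intro f g h
    have h4 : f (fun _ => 1) = g (fun _ => 1) := congrArg Prod.snd h
    have h5 : f + (1 - f fun _ => 1) • f₀ = g + (1 - g fun _ => 1) • f₀ :=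
      congrArg (fun p => (Prod.fst p).1) h
    rw [h4] at h5
    exact add_right_cancel h5
  have h6 := Cardinal.mk_le_of_injective hΘ
  rw [Cardinal.mk_prod] at h6
  have h7 : Cardinal.mk K ≤ Cardinal.continuum := by
    rw [Cardinal.mk_fintype]
    exact (Cardinal.nat_lt_continuum _).le
  have h8 : Cardinal.lift.{0} (Cardinal.mk {f : Module.Dual K (ℕ → K) // f (fun _ => 1) = 1}) *
      Cardinal.lift.{0} (Cardinal.mk K) ≤ Cardinal.continuum := by
    rw [Cardinal.lift_id, Cardinal.lift_id]
    calc _ ≤ Cardinal.continuum * Cardinal.continuum := mul_le_mul' hcon h7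
      _ = Cardinal.continuum := Cardinal.continuum_mul_self
  exact absurd (h6.trans h8) (not_le.2 h3)

/-- There is no injection of the right spectrum into the left spectrum. -/
theorem no_injection (h : RightZg B → LeftZg B) : ¬ Function.Injective h := by
  intro hh
  obtain ⟨Φ, hΦ⟩ := right_injective
  obtain ⟨Ψ, hΨ⟩ := left_injective
  have h1 := Cardinal.mk_le_of_injective (hΨ.comp (hh.comp hΦ))
  have h2 : Cardinal.mk (Set (ℕ × List (List ℕ))) = Cardinal.continuum := by
    rw [Cardinal.mk_set, Cardinal.mk_eq_aleph0 (ℕ × List (List ℕ)), Cardinal.two_power_aleph0]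
  rw [h2] at h1
  exact absurd h1 (not_le.2 card_functionals)

/-- There is a ring `R` such that no bijection between the right and the left Ziegler spectrum of
`R` is a homeomorphism. -/
theorem result : ∃ (R : Type) (_ : Ring R),
    ¬ ∃ h : RightZg R → LeftZg R, Function.Bijective h ∧ Continuous h ∧ IsOpenMap h :=
  ⟨B, inferInstance, fun ⟨h, hb, _⟩ => no_injection h hb.1⟩

end Pool.Agent.Results.MP_cfafa5_al.NotHomeomorphic
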